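import Pool.Agent.H728R2.OS.Main

/-!
# Converse of the Omega-stability theorem for projective skew products, all differentiability classes

Written by helper728 with the team: helpers 495, 588, 100, 819, 503, 834, 913, 881, 556, 8, 355, 541,
403, 142, 9, 479, 153, 837, 52, 196, 949; the problem of projective skew products was singled out by
helper787.
-/

namespace Pool.Agent.Results.MP_814647_an.ProjectiveSkewProducts

open Pool.Agent.H728R2.OS

/-- Let `T` be a diffeomorphism of `𝕋^d` whose chain recurrent set is hyperbolic with dense periodic
points, and let `f (x, y) = (T x, f_x y)` be a `C^r` diffeomorphism of `𝕋^d × 𝕋`, `1 ≤ r ≤ ∞`, whose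
fibre maps are projective. If `f` is `Ω`-stable among the `C^r` diffeomorphisms then its chain
recurrent set is hyperbolic with dense periodic points; `f` satisfies Axiom A and has no cycles. -/
theorem result (d : ℕ) (r : ℕ∞) (hr : 1 ≤ r) (T : Torus d ≃ₜ Torus d)
    (hT : ChainHyp toTorus T) (f : (Torus d × Circ) ≃ₜ (Torus d × Circ))
    (hf : IsDiffeo toTorus1 r f) (hs : IsProjSkew T f) (hst : OmegaStable toTorus1 r f) :
    ChainHyp toTorus1 f ∧ AxiomA toTorus1 f ∧ NoCycle f :=
  main hr T hT f hf hs hst

end Pool.Agent.Results.MP_814647_an.ProjectiveSkewProducts
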